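import Pool.Agent.Lib.MP_a05470_co.FrontierForces5
import Pool.Agent.Lib.MP_a05470_co.CoreForces
import Pool.Agent.Lib.MP_a05470_co.General3

/-!
# Exact values
-/

set_option autoImplicit false

namespace Pool.Agent.Results.MP_a05470_co.ExactCores

open Filter Topology Classical Pool.Agent.Lib.MP_a05470_co

/-- Every component of `G` is a complete bipartite graph with two equal parts: `κ x` is a label of
the component of `x`, and `σ x` is the side of `x` in it. -/
def EqualParts {V : Type} [Fintype V] (G : SimpleGraph V) : Prop :=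
  ∃ (κ : V → V) (σ : V → Bool), (∀ x y, G.Adj x y ↔ κ x = κ y ∧ σ x ≠ σ y) ∧
    ∀ i, (Finset.univ.filter (fun x => κ x = i ∧ σ x = true)).card =
      (Finset.univ.filter (fun x => κ x = i ∧ σ x = false)).card

/-- `G` has an independent set `W` containing more than half of the vertices, and all the vertices
outside `W` can be matched into `W` by edges of `G`. -/
def Koenig {V : Type} [Fintype V] (G : SimpleGraph V) : Prop :=
  ∃ W : Finset V, (∀ x ∈ W, ∀ y ∈ W, ¬ G.Adj x y) ∧ Fintype.card V < 2 * W.card ∧
    ∃ f : {x // x ∉ W} → V, Function.Injective f ∧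
      ∀ x : {x // x ∉ W}, f x ∈ W ∧ G.Adj x (f x)

/-- Both chromatic numbers are at most `(|V| + 1) / 2`. -/
def Balanced {V : Type} [Fintype V] (G : SimpleGraph V) : Prop :=
  2 * G.chromaticNumber.toNat ≤ Fintype.card V + 1 ∧
    2 * Gᶜ.chromaticNumber.toNat ≤ Fintype.card V + 1

/-- `G` is vertex-critical (deleting any vertex lowers the chromatic number), and its chromatic
number is at least `(|V| + 1) / 2`. -/
def CriticalLarge {V : Type} [Fintype V] (G : SimpleGraph V) : Prop :=
  (∀ v, (G.comap (Subtype.val : {x // x ≠ v} → V)).chromaticNumber.toNat <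
    G.chromaticNumber.toNat) ∧ Fintype.card V + 1 ≤ 2 * G.chromaticNumber.toNat

/-- There are disjoint sets `U`, `W` such that all neighbours (in `G`) of the vertices of `W` are in
`U`, `U` can be matched into `W` by edges of `G`, and the complement of `G` is `CriticalLarge` on
the rest; and `U` is empty or the chromatic number of the complement of `G` is at least
`(2 |V| + 1) / 3`. (`U = W = ∅` is possible.) -/
def CrownCritical {V : Type} [Fintype V] (G : SimpleGraph V) : Prop :=
  ∃ U W : Finset V, Disjoint U W ∧ (∀ x ∈ W, ∀ y, G.Adj x y → y ∈ U) ∧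
    (∃ f : V → V, Set.InjOn f (U : Set V) ∧ ∀ u ∈ U, f u ∈ W ∧ G.Adj u (f u)) ∧
    CriticalLarge (Gᶜ.comap (Subtype.val : {x // x ∉ U ∪ W} → V)) ∧
    (U = ∅ ∨ 2 * Fintype.card V + 1 ≤ 3 * Gᶜ.chromaticNumber.toNat)

/-- `μ_p(H) ≥ 1 - 1/(|H|-1)` for all `p`, and equality for some `p`; here `H` is the 2-coloured
complete graph with red graph `H` and blue graph `Hᶜ`. -/
def MinDensity {V : Type} [Fintype V] (H : SimpleGraph V) : Prop :=
  (∀ p μ : ℝ, 0 ≤ p → p ≤ 1 →
    Tendsto (fun n : ℕ => ex p H Hᶜ n / (n.choose 2 : ℝ)) atTop (𝓝 μ) →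
      1 - 1 / ((Fintype.card V : ℝ) - 1) ≤ μ) ∧
  ∃ p : ℝ, 0 ≤ p ∧ p ≤ 1 ∧
    Tendsto (fun n : ℕ => ex p H Hᶜ n / (n.choose 2 : ℝ)) atTop
      (𝓝 (1 - 1 / ((Fintype.card V : ℝ) - 1)))

theorem minDensity_of_forces {V : Type} [Fintype V] (H : SimpleGraph V)
    (hV : 2 ≤ Fintype.card V)
    (hF : ∃ a b : ℝ, 0 ≤ a ∧ 0 ≤ b ∧ a + b = (Fintype.card V : ℝ) - 1 ∧ Forces a b H Hᶜ) :
    MinDensity H := by
  have hlow : ∀ p μ : ℝ, Tendsto (fun n : ℕ => ex p H Hᶜ n / (n.choose 2 : ℝ)) atTop (𝓝 μ) →
      1 - 1 / ((Fintype.card V : ℝ) - 1) ≤ μ := fun p μ hμ => mu_ge H hV hμ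
  refine ⟨fun p μ _ _ hμ => hlow p μ hμ, ?_⟩
  obtain ⟨a, b, ha, hb, hab, hF⟩ := hF
  have hV' : (2 : ℝ) ≤ Fintype.card V := by exact_mod_cast hV
  have habpos : 0 < a + b := by
    rw [hab]
    linarith
  have hH : ∃ x y, H.Adj x y ∨ Hᶜ.Adj x y := by
    obtain ⟨x, y, hxy⟩ := Fintype.one_lt_card_iff.1 (show 1 < Fintype.card V by omega)
    refine ⟨x, y, ?_⟩
    by_cases h : H.Adj x y
    · exact Or.inl h
    · exact Or.inr (compl_adj_of hxy h)
  obtain ⟨μ, hμ, hle⟩ := mu_le_of_forces ha hb habpos hH hF
  have h3 := hlow _ μ hμ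
  rw [hab] at hle
  have h4 : μ = 1 - 1 / ((Fintype.card V : ℝ) - 1) := le_antisymm hle h3
  refine ⟨a / (a + b), by positivity, ?_, ?_⟩
  · rw [div_le_one habpos]
    linarith
  · rw [← h4]
    exact hμ

/-- the number of vertices is even -/
theorem even_card {V : Type} [Fintype V] {G : SimpleGraph V} (h : EqualParts G) :
    ∃ t, Fintype.card V = 2 * t := by
  obtain ⟨κ, σ, -, hbal⟩ := h
  obtain ⟨τ, _⟩ := Frontier.exists_tau κ σ hbal
  refine ⟨Fintype.card {x : V // σ x = true}, ?_⟩
  have h1 := Fintype.card_congr τ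
  have h3 := Fintype.card_congr (Equiv.sumCompl (fun x : V => σ x = true))
  rw [Fintype.card_sum] at h3
  have h4 : Fintype.card {x : V // ¬ σ x = true} = Fintype.card {x : V // σ x = false} :=
    Fintype.card_congr (Equiv.subtypeEquivRight (fun x => by simp))
  omega

/-- forced with some pair of thresholds -/
def Forced {V : Type} [Fintype V] (G : SimpleGraph V) : Prop :=
  ∃ a b : ℝ, 0 ≤ a ∧ 0 ≤ b ∧ a + b = (Fintype.card V : ℝ) - 1 ∧ Forces a b G Gᶜ

theorem Forced.compl {V : Type} [Fintype V] {G : SimpleGraph V} (h : Forced Gᶜ) : Forced G := by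
  obtain ⟨a, b, ha, hb, hab, hF⟩ := h
  have h1 := forces_swap hF
  rw [compl_compl] at h1
  exact ⟨b, a, hb, ha, by rw [← hab]; ring, h1⟩

theorem forced_koenig {V : Type} [Fintype V] {G : SimpleGraph V} (h : Koenig G) : Forced G := by
  obtain ⟨W, hW, hc, f, hf, hfa⟩ := h
  exact forces_koenig' _ W hW hc f hf hfa

theorem forces_crownCritical {V : Type} [Fintype V] {G : SimpleGraph V} (h : CrownCritical G) :
    ∃ a b : ℝ, 0 ≤ a ∧ 0 ≤ b ∧ a + b = (Fintype.card V : ℝ) - 1 ∧ Forces a b G Gᶜ := by
  obtain ⟨U, W, hd, hW, ⟨f, hf, hfW⟩, ⟨hc1, hc2⟩, hU⟩ := h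
  have hcr : IsCrown G Finset.univ U W := by
    refine ⟨Finset.subset_univ _, Finset.subset_univ _, hd, ?_, fun w hw v _ hadj => hW w hw v hadj,
      ⟨f, hf, hfW⟩⟩
    intro x hx y hy hadj
    exact Finset.disjoint_left.1 hd (hW x hx y hadj) hy
  set C : Finset V := Finset.univ \ (U ∪ W) with hC
  set G' := G.comap (Subtype.val : {x // x ∉ U ∪ W} → V) with hG'
  have hG'c : Gᶜ.comap (Subtype.val : {x // x ∉ U ∪ W} → V) = G'ᶜ :=
    (compl_comap _ _ Subtype.val_injective).symm
  rw [hG'c] at hc1 hc2
  -- the chromatic numbers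
  have e1 : G'ᶜ.chromaticNumber.toNat = JT.th G C := by
    rw [← th_eq_chi, hG', JT.th_comap]
    congr 1
    ext v
    rw [hC]
    simp
  have e2 : Fintype.card {x // x ∉ U ∪ W} = C.card := by
    rw [hC, Finset.card_sdiff_of_subset (Finset.subset_univ _), Fintype.card_subtype_compl,
      Fintype.card_coe, Finset.card_univ]
  have e3 := JT.th_crown hcr
  rw [← hC] at e3
  have e4 : C.card + (U.card + W.card) = Fintype.card V := by
    rw [hC, Finset.card_sdiff_of_subset (Finset.subset_univ _), Finset.card_univ,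
      Finset.card_union_of_disjoint hd]
    have := Finset.card_le_univ (U ∪ W)
    rw [Finset.card_union_of_disjoint hd] at this
    omega
  have e5 := JT.th_le_card (H := G) C
  rw [e1, e2] at hc2
  have hcrit' : JT.Crit G' Finset.univ := crit_of_chi hc1
  have hcrit : JT.Crit G C := by
    intro x hx
    rw [hC, Finset.mem_sdiff] at hx
    have h1 := hcrit' ⟨x, hx.2⟩ (Finset.mem_univ _)
    rw [← th_eq_chi] at e1
    rw [e1, hG', JT.th_comap] at h1
    have h2 : (Finset.univ.erase (⟨x, hx.2⟩ : {x // x ∉ U ∪ W})).map ⟨Subtype.val,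
        Subtype.val_injective⟩ = C.erase x := by
      ext v
      rw [hC]
      simp only [Finset.mem_map, Finset.mem_erase, Finset.mem_univ, and_true,
        Function.Embedding.coeFn_mk, Finset.mem_sdiff, true_and]
      constructor
      · rintro ⟨z, hz, rfl⟩
        exact ⟨fun h => hz (Subtype.ext h), z.2⟩
      · rintro ⟨h1, h2⟩
        exact ⟨⟨v, h2⟩, fun h => h1 (congrArg Subtype.val h), rfl⟩
    rw [← h2]
    refine lt_of_eq_of_lt (congrArg (JT.th G) ?_) h1
    ext z
    simp only [Finset.mem_map, Finset.mem_erase]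
  have hF : FF ((C.card - JT.th G C : ℕ) : ℝ) ((JT.th G C - 1 : ℕ) : ℝ) G C :=
    FF.crit hcrit (by omega) (by omega) (by omega)
  rcases hU with hU | hU
  · -- isolated vertices on top
    subst hU
    refine ⟨((C.card - JT.th G C : ℕ) : ℝ), ((JT.th G C - 1 : ℕ) : ℝ) + W.card, by positivity,
      by positivity, ?_, ?_⟩
    · rw [Finset.card_empty] at e4
      have : C.card - JT.th G C + (JT.th G C - 1) + W.card + 1 = Fintype.card V := by omega
      rw [← this]
      push_cast
      ring
    · have h1 := hF.addIsos (by positivity) (by positivity) W (by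
        rw [hC, Finset.disjoint_left]
        intro x hx hx'
        rw [Finset.mem_sdiff, Finset.mem_union] at hx
        exact hx.2 (Or.inr hx')) (fun w hw y _ hadj => absurd (hW w hw y hadj)
          (Finset.notMem_empty y))
      have h2 : C ∪ W = Finset.univ := by
        rw [hC]
        ext x
        simp
      rw [h2] at h1
      exact h1.toForces
  · rw [← th_eq_chi] at hU
    by_cases hU0 : U = ∅
    · subst hU0
      refine ⟨((C.card - JT.th G C : ℕ) : ℝ), ((JT.th G C - 1 : ℕ) : ℝ) + W.card, by positivity,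
        by positivity, ?_, ?_⟩
      · rw [Finset.card_empty] at e4
        have : C.card - JT.th G C + (JT.th G C - 1) + W.card + 1 = Fintype.card V := by omega
        rw [← this]
        push_cast
        ring
      · have h1 := hF.addIsos (by positivity) (by positivity) W (by
          rw [hC, Finset.disjoint_left]
          intro x hx hx'
          rw [Finset.mem_sdiff, Finset.mem_union] at hx
          exact hx.2 (Or.inr hx')) (fun w hw y _ hadj => absurd (hW w hw y hadj)
            (Finset.notMem_empty y))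
        have h2 : C ∪ W = Finset.univ := by
          rw [hC]
          ext x
          simp
        rw [h2] at h1
        exact h1.toForces
    · have hUpos : 0 < U.card := Finset.card_pos.2 (Finset.nonempty_of_ne_empty hU0)
      refine ⟨((C.card - JT.th G C + U.card : ℕ) : ℝ), ((JT.th G C - 1 + W.card : ℕ) : ℝ),
        by positivity, by positivity, ?_, ?_⟩
      · have : C.card - JT.th G C + U.card + (JT.th G C - 1 + W.card) + 1 = Fintype.card V := by
          omega
        rw [← this]
        push_cast
        ring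
      · apply FF.toForces
        apply FF.crown hcr
        · have : 0 < C.card - JT.th G C + U.card := by omega
          exact_mod_cast this
        · have : 2 * (C.card - JT.th G C + U.card) ≤ JT.th G C - 1 + W.card := by omega
          exact_mod_cast this
        · have : U.card ≤ C.card - JT.th G C + U.card := by omega
          exact_mod_cast this
        · have : W.card ≤ JT.th G C - 1 + W.card := by omega
          exact_mod_cast this
        · rw [← hC]
          have h1 : ((C.card - JT.th G C + U.card : ℕ) : ℝ) - (U.card : ℝ) =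
              ((C.card - JT.th G C : ℕ) : ℝ) := by
            push_cast
            ring
          have h2 : ((JT.th G C - 1 + W.card : ℕ) : ℝ) - (W.card : ℝ) =
              ((JT.th G C - 1 : ℕ) : ℝ) := by
            push_cast
            ring
          rw [h1, h2]
          exact hF

/-- a graph on two vertices -/
theorem forced_two {V : Type} [Fintype V] (G : SimpleGraph V) (hV : Fintype.card V = 2) :
    Forced G := by
  have hall : ∀ G : SimpleGraph V, (∀ x y, ¬ G.Adj x y) → Koenig G := by
    intro G hG
    refine ⟨Finset.univ, fun x _ y _ => hG x y, ?_, ?_⟩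
    · rw [Finset.card_univ]
      omega
    · have hE : IsEmpty {x : V // x ∉ (Finset.univ : Finset V)} :=
        ⟨fun x => x.2 (Finset.mem_univ _)⟩
      exact ⟨fun x => hE.elim x, fun x => hE.elim x, fun x => hE.elim x⟩
  obtain ⟨u, v, _, huniv⟩ := Finset.card_eq_two.1 (show (Finset.univ : Finset V).card = 2 by
    rw [Finset.card_univ]
    exact hV)
  have hmem : ∀ x, x = u ∨ x = v := by
    intro x
    have hx : x ∈ (Finset.univ : Finset V) := Finset.mem_univ x
    rw [huniv] at hx
    simpa using hx
  by_cases h : G.Adj u v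
  · apply Forced.compl
    apply forced_koenig
    apply hall
    intro x y hxy
    rw [SimpleGraph.compl_adj] at hxy
    rcases hmem x with rfl | rfl
    · rcases hmem y with rfl | rfl
      · exact hxy.1 rfl
      · exact hxy.2 h
    · rcases hmem y with rfl | rfl
      · exact hxy.2 h.symm
      · exact hxy.1 rfl
  · apply forced_koenig
    apply hall
    intro x y hxy
    rcases hmem x with rfl | rfl
    · rcases hmem y with rfl | rfl
      · exact G.irrefl hxy
      · exact h hxy
    · rcases hmem y with rfl | rfl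
      · exact h hxy.symm
      · exact G.irrefl hxy

theorem forced_equalParts {V : Type} [Fintype V] {G : SimpleGraph V} (h : EqualParts G)
    (hV : 2 ≤ Fintype.card V) (h4 : Fintype.card V ≠ 4) (h6 : Fintype.card V ≠ 6)
    (h8 : Fintype.card V ≠ 8) : Forced G := by
  obtain ⟨t, ht⟩ := even_card h
  by_cases h1 : t = 1
  · subst h1
    exact forced_two G ht
  · obtain ⟨κ, σ, h2, h3⟩ := h
    exact Frontier.forces_equalParts5 G (t := t) (by omega) ht κ σ h2 h3

/-- The condition on a core: one of the two graphs is bipartite, or both chromatic numbers are at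
most `(|C| + 1) / 2`; moreover, if `|C|` is `4`, `6` or `8`, then neither all components of the one
graph nor all components of the other one are complete bipartite with equal parts. -/
def Good {V : Type} [Fintype V] (G : SimpleGraph V) : Prop :=
  (G.Colorable 2 ∨ Gᶜ.Colorable 2 ∨ Balanced G) ∧
    (Fintype.card V = 4 ∨ Fintype.card V = 6 ∨ Fintype.card V = 8 →
      ¬ EqualParts G ∧ ¬ EqualParts Gᶜ)

theorem forced_good {V : Type} [Fintype V] {G : SimpleGraph V} (hV : 2 ≤ Fintype.card V)
    (h : Good G) : Forced G := by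
  obtain ⟨h1, h2⟩ := h
  have hbal : ∀ (G : SimpleGraph V), ¬ EqualParts G →
      ∀ (κ : V → V) (σ : V → Bool), ¬ BalOn G Finset.univ κ σ := by
    rintro G hG κ σ ⟨h1, h2⟩
    exact hG ⟨κ, σ, fun x y => h1 x (Finset.mem_univ x) y (Finset.mem_univ y), h2⟩
  by_cases hE1 : EqualParts G
  · refine forced_equalParts hE1 hV ?_ ?_ ?_ <;> intro h3
    · exact (h2 (by omega)).1 hE1
    · exact (h2 (by omega)).1 hE1
    · exact (h2 (by omega)).1 hE1
  by_cases hE2 : EqualParts Gᶜ
  · apply Forced.compl
    refine forced_equalParts hE2 hV ?_ ?_ ?_ <;> intro h3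
    · exact (h2 (by omega)).2 hE2
    · exact (h2 (by omega)).2 hE2
    · exact (h2 (by omega)).2 hE2
  by_cases hV2 : Fintype.card V = 2
  · exact forced_two G hV2
  rcases h1 with h1 | h1 | h1
  · exact forces_bip G (by omega) (hbal G hE1) (hbal Gᶜ hE2) h1
  · apply Forced.compl
    refine forces_bip Gᶜ (by omega) (hbal Gᶜ hE2) ?_ h1
    rw [compl_compl]
    exact hbal G hE1
  · exact forces_balanced _ hV (hbal G hE1) (hbal Gᶜ hE2) h1.1 h1.2

/-- (1) If `|H| ≥ 2`, `|H| ≠ 4, 6, 8`, and the red graph of `H` is bipartite, or the blue graph is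
bipartite, or both chromatic numbers are at most `(|H| + 1) / 2`, then
`min_p μ_p(H) = 1 - 1/(|H|-1)`. For `|H| = 4, 6, 8` the same holds if neither all red components
nor all blue components are complete bipartite with equal parts.

(2) The same holds for every `H` obtained from a core `C` with at least two vertices by adding
`l ≥ 0` vertices one after another, each joined to all earlier vertices in one colour, where `C` is
as in (1), or the red or the blue graph of `C` is `Koenig`, or the red or the blue graph of `C` is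
`CrownCritical`. -/
theorem result :
    (∀ (V : Type) [Fintype V] (H : SimpleGraph V), 2 ≤ Fintype.card V →
      (Fintype.card V = 4 ∨ Fintype.card V = 6 ∨ Fintype.card V = 8 →
        ¬ EqualParts H ∧ ¬ EqualParts Hᶜ) →
      (H.Colorable 2 ∨ Hᶜ.Colorable 2 ∨
        (2 * H.chromaticNumber.toNat ≤ Fintype.card V + 1 ∧
          2 * Hᶜ.chromaticNumber.toNat ≤ Fintype.card V + 1)) → MinDensity H) ∧
    (∀ (V : Type) [Fintype V] (l : ℕ) (H : SimpleGraph (V ⊕ Fin l)) (c : Fin l → Bool),
      2 ≤ Fintype.card V →
      (∀ i x, H.Adj (Sum.inr i) (Sum.inl x) ↔ c i = true) →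
      (∀ i j, j < i → (H.Adj (Sum.inr i) (Sum.inr j) ↔ c i = true)) →
      (Good (H.comap Sum.inl) ∨ Koenig (H.comap Sum.inl) ∨ Koenig (H.comap Sum.inl)ᶜ ∨
        CrownCritical (H.comap Sum.inl) ∨ CrownCritical (H.comap Sum.inl)ᶜ) →
      MinDensity H) := by
  refine ⟨?_, ?_⟩
  · intro V _ H hV h1 h2
    exact minDensity_of_forces H hV (forced_good hV ⟨h2, h1⟩)
  · intro V _ l H c hV hd1 hd2 hcore
    have hcore' : Forced (H.comap Sum.inl) := by
      rcases hcore with h | h | h | h | h
      · exact forced_good hV h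
      · exact forced_koenig h
      · exact (forced_koenig h).compl
      · exact forces_crownCritical h
      · exact Forced.compl (forces_crownCritical h)
    obtain ⟨a, b, ha, hb, hab, hF⟩ := hcore'
    obtain ⟨a', b', ha', hb', hab', hF'⟩ := forces_extend l H c hd1 hd2 a b ha hb hF
    have hcard : Fintype.card (V ⊕ Fin l) = Fintype.card V + l := by simp
    apply minDensity_of_forces H (by rw [hcard]; omega)
    refine ⟨a', b', ha', hb', ?_, hF'⟩
    rw [hab', hab, hcard]
    push_cast
    ring

end Pool.Agent.Results.MP_a05470_co.ExactCores
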