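import Pool.Agent.Lib.MP_a05470_co.General3

/-!
# An upper bound for all `H`
-/

set_option autoImplicit false

namespace Pool.Agent.Results.MP_a05470_co.SevenEighths

open Filter Topology Classical Pool.Agent.Lib.MP_a05470_co

/-- `T h χ` with `a = h - χ` and `b = χ - 1`: it is `2 ⌊h/2⌋` if `χ ≤ (h+1)/2`, and otherwise it is
the minimum of `2 b` and `h - 1 + max (⌊a/3⌋) (a - ⌊b/2⌋)` (natural subtraction). -/
def T (h χ : ℕ) : ℕ :=
  if 2 * χ ≤ h + 1 then 2 * (h / 2)
  else min (2 * (χ - 1)) (h - 1 + max ((h - χ) / 3) (h - χ - (χ - 1) / 2))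

theorem exists_pair {V : Type} [Fintype V] (H : SimpleGraph V) (hV : 2 ≤ Fintype.card V) :
    ∃ x y, H.Adj x y ∨ Hᶜ.Adj x y := by
  obtain ⟨x, y, hxy⟩ := Fintype.one_lt_card_iff.1 (show 1 < Fintype.card V by omega)
  refine ⟨x, y, ?_⟩
  by_cases h : H.Adj x y
  · exact Or.inl h
  · exact Or.inr ((SimpleGraph.compl_adj H x y).2 ⟨hxy, h⟩)

theorem T_pos {h χ : ℕ} (h2 : 2 ≤ h) (h3 : 2 ≤ χ) : 0 < T h χ := by
  unfold T
  split_ifs
  · omega
  · omega

theorem T_le {h χ : ℕ} (h2 : 2 ≤ h) (h3 : 2 ≤ χ) (h4 : h ≠ 4) (h5 : χ ≤ h) :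
    7 * T h χ + 6 ≤ 8 * h := by
  unfold T
  split_ifs
  · omega
  · omega

/-- one of the colours has the chromatic number `χ` -/
theorem forces_T {V : Type} [Fintype V] (H : SimpleGraph V) (hV : 2 ≤ Fintype.card V) {χ : ℕ}
    (hχ : 2 ≤ χ) (h1 : H.chromaticNumber.toNat ≤ χ) (h3 : Hᶜ.chromaticNumber.toNat = χ) :
    ∃ a b : ℕ, a + b = T (Fintype.card V) χ ∧ Forces (a : ℝ) b H Hᶜ := by
  have hth : JT.th H Finset.univ = χ := by rw [th_eq_chi, h3]
  have hle : χ ≤ Fintype.card V := by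
    rw [← hth]
    exact JT.th_le_card _
  unfold T
  split_ifs with h4
  · refine ⟨Fintype.card V / 2, Fintype.card V / 2, by omega, ?_⟩
    exact forces_odd (by omega) (by omega) ((colorable_iff_toNat _ _).2 (by omega))
      ((colorable_iff_toNat _ _).2 (by omega))
  · rcases le_total (2 * (χ - 1)) (Fintype.card V - 1 + max ((Fintype.card V - χ) / 3)
      (Fintype.card V - χ - (χ - 1) / 2)) with h5 | h5
    · rw [min_eq_left h5]
      refine ⟨χ - 1, χ - 1, by omega, ?_⟩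
      exact forces_odd (by omega) (by omega) ((colorable_iff_toNat _ _).2 (by omega))
        ((colorable_iff_toNat _ _).2 (by omega))
    · rw [min_eq_right h5]
      refine ⟨Fintype.card V - χ, χ - 1 + max ((Fintype.card V - χ) / 3)
        (Fintype.card V - χ - (χ - 1) / 2), by omega, ?_⟩
      exact forces_main (by omega) (by omega) (by omega) (by omega) (by omega)

/-- Let `H` be a 2-coloured complete graph with red graph `H` and blue graph `Hᶜ` on `h ≥ 2`
vertices, and let `χ` be the larger one of the two chromatic numbers. There is a `p` in `[0, 1]`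
with `μ_p(H) ≤ 1 - 1/T(h, χ)`. Moreover `T(h, χ) ≤ (8 h - 6)/7` if `h ≠ 4`; hence
`min_p μ_p(H) ≤ 1 - 7/(8 h - 6)` for all `H` with `|H| = h ≠ 4`. -/
theorem result {V : Type} [Fintype V] (H : SimpleGraph V) (hV : 2 ≤ Fintype.card V) :
    (∃ p μ : ℝ, 0 ≤ p ∧ p ≤ 1 ∧
      Tendsto (fun n : ℕ => ex p H Hᶜ n / (n.choose 2 : ℝ)) atTop (𝓝 μ) ∧
      μ ≤ 1 - 1 / (T (Fintype.card V) (max H.chromaticNumber.toNat Hᶜ.chromaticNumber.toNat) : ℝ) ∧
      (Fintype.card V ≠ 4 → μ ≤ 1 - 7 / (8 * (Fintype.card V : ℝ) - 6))) := by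
  set χ := max H.chromaticNumber.toNat Hᶜ.chromaticNumber.toNat with hχ
  have hle : χ ≤ Fintype.card V := by
    rw [hχ]
    apply max_le
    · rw [← compl_compl H, ← th_eq_chi]
      exact JT.th_le_card _
    · rw [← th_eq_chi]
      exact JT.th_le_card _
  have hχ2 : 2 ≤ χ := by
    obtain ⟨x, y, hxy⟩ := Fintype.one_lt_card_iff.1 (show 1 < Fintype.card V by omega)
    by_contra hcon
    push Not at hcon
    have h1 : H.chromaticNumber.toNat ≤ χ := le_max_left _ _
    have h2 : Hᶜ.chromaticNumber.toNat ≤ χ := le_max_right _ _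
    have e1 : H.Colorable 1 := (colorable_iff_toNat _ _).2 (by omega)
    have e2 : Hᶜ.Colorable 1 := (colorable_iff_toNat _ _).2 (by omega)
    obtain ⟨C1⟩ := e1
    obtain ⟨C2⟩ := e2
    by_cases h : H.Adj x y
    · exact C1.valid h (Subsingleton.elim _ _)
    · exact C2.valid ((SimpleGraph.compl_adj H x y).2 ⟨hxy, h⟩) (Subsingleton.elim _ _)
  have hF : ∃ a b : ℕ, a + b = T (Fintype.card V) χ ∧ Forces (a : ℝ) b H Hᶜ := by
    rcases max_choice H.chromaticNumber.toNat Hᶜ.chromaticNumber.toNat with h | h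
    · obtain ⟨a, b, h1, h2⟩ := forces_T Hᶜ hV hχ2 (le_max_right _ _)
        (by rw [compl_compl, hχ, h])
      have h3 := forces_swap h2
      rw [compl_compl] at h3
      exact ⟨b, a, by omega, h3⟩
    · exact forces_T H hV hχ2 (le_max_left _ _) (by rw [hχ, h])
  obtain ⟨a, b, hab, hF⟩ := hF
  have hT := T_pos hV hχ2
  have habR : (a : ℝ) + b = (T (Fintype.card V) χ : ℝ) := by exact_mod_cast hab
  have hTR : (0 : ℝ) < (T (Fintype.card V) χ : ℝ) := by exact_mod_cast hT
  obtain ⟨μ, hμ, hle'⟩ := mu_le_of_forces (a := (a : ℝ)) (b := (b : ℝ)) (by positivity)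
    (by positivity) (by rw [habR]; exact hTR) (exists_pair H hV) hF
  rw [habR] at hμ hle'
  refine ⟨a / (T (Fintype.card V) χ : ℝ), μ, by positivity, ?_, hμ, hle', ?_⟩
  · rw [div_le_one hTR, ← habR]
    have : (0 : ℝ) ≤ b := by positivity
    linarith
  · intro h4
    have h5 := T_le hV hχ2 h4 hle
    have h6 : (T (Fintype.card V) χ : ℝ) ≤ (8 * (Fintype.card V : ℝ) - 6) / 7 := by
      rw [le_div_iff₀ (by norm_num)]
      have : (7 * (T (Fintype.card V) χ : ℝ) + 6) ≤ 8 * (Fintype.card V : ℝ) := by exact_mod_cast h5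
      linarith
    have h7 := one_div_le_one_div_of_le hTR h6
    rw [one_div_div] at h7
    linarith

end Pool.Agent.Results.MP_a05470_co.SevenEighths
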